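import Pool.Agent.U222.TT.Core

/-!
# The Tate conjecture for products with coverings
-/

set_option autoImplicit false

open CategoryTheory AlgebraicGeometry TensorProduct

universe u

namespace Pool.Agent.U222.TT

open Pool.Agent.H914 Pool.Agent.H914.VarClass Pool.Agent.H914.VarClass.Obj Pool.Agent.U222.HC
open Pool.Agent.U222.HC.I (pmap pmap_id pmap_comp gprod c1 c2 c_mul nest nest_X cmp eq_one_of_cmp)

variable {k : Type u} [Field k] {𝒱 : VarClass k} {ops : CycleOps 𝒱} (T : TateTheory ops)
  {X Y Z V : 𝒱.Obj} (A B : GVar 𝒱)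

/-! ### Invariant classes -/

lemma isAlg_ex {a : T.W.H X} {b : T.W.H Y} (ha : IsAlg T a) (hb : IsAlg T b) :
    IsAlg T (ex T X Y a b) := by
  induction ha using Submodule.span_induction with
  | mem a ha =>
    obtain ⟨j, z, hz, rfl⟩ := ha
    induction hb using Submodule.span_induction with
    | mem b hb =>
      obtain ⟨l, y, hy, rfl⟩ := hb
      refine Submodule.subset_span ⟨j + l, ops.mul (ops.pull (fst X Y) z) (ops.pull (snd X Y) y),
        ops.mul_mem (ops.pull_mem _ hz) (ops.pull_mem _ hy), ?_⟩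
      rw [T.W.cl_mul, T.W.cl_pull, T.W.cl_pull]
      rfl
    | zero => rw [map_zero]; exact Submodule.zero_mem _
    | add x y _ _ hx hy => rw [map_add]; exact Submodule.add_mem _ hx hy
    | smul r x _ hx => rw [map_smul]; exact Submodule.smul_mem _ _ hx
  | zero => rw [map_zero, LinearMap.zero_apply]; exact Submodule.zero_mem _
  | add x y _ _ hx hy => rw [map_add, LinearMap.add_apply]; exact Submodule.add_mem _ hx hy
  | smul r x _ hx => rw [map_smul, LinearMap.smul_apply]; exact Submodule.smul_mem _ _ hx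

/-- The invariant classes are algebraic. -/
def InvAlg : Prop := ∀ x : T.W.H A.X, IsAlg T (eg T A 1 x)

lemma invAlg_of {A : GVar 𝒱}
    (h : ∀ x : T.W.H A.X, (∀ g, T.W.map (A.act g) x = x) → IsAlg T x) : InvAlg T A := by
  intro x
  refine h _ fun g => ?_
  rw [eg_eigen T A 1 x g, ev, AddChar.one_apply, map_one, one_smul]

lemma invAlg_gprod {A B : GVar 𝒱} (hA : InvAlg T A) (hB : InvAlg T B) :
    InvAlg T (gprod A B) := by
  intro x
  change T.W.H (A.X.prod B.X) at x
  induction x using kn_ind T with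
  | h0 => exact (map_zero (eg T (gprod A B) 1)).symm ▸ Submodule.zero_mem _
  | ha x y hx hy => exact (map_add (eg T (gprod A B) 1) x y).symm ▸ Submodule.add_mem _ hx hy
  | he a b => exact (eg_prod T A B 1 a b).symm ▸ isAlg_ex T (hA a) (hB b)

lemma invAlg_nest : ∀ (n : ℕ) (A : Fin (n + 1) → GVar 𝒱), (∀ i, InvAlg T (A i)) →
    InvAlg T (nest n A)
  | 0, _, h => h 0
  | n + 1, A, h => invAlg_gprod T (h 0) (invAlg_nest n (fun i => A i.succ) fun i => h i.succ)

lemma above_of_alg (τ : T.E) {x : T.W.H X} (hx : IsAlg T x) : (T.pq τ X).Above 0 x := by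
  induction hx using Submodule.span_induction with
  | mem a ha =>
    obtain ⟨j, ha⟩ := ha
    refine Submodule.mem_iSup_of_mem ⟨((j : ℤ), (j : ℤ)), ?_⟩
      (T.tate τ X j a (class_mem ha) (class_twisted ha))
    rw [sub_self]
  | zero => exact Submodule.zero_mem _
  | add x y _ _ hx hy => exact Submodule.add_mem _ hx hy
  | smul r x _ hx => exact Submodule.smul_mem _ _ hx

/-! ### The types of eigenvectors -/

open Classical in
/-- The types of the eigenvectors on a product. -/
theorem types_nest (τ : T.E) : ∀ (n : ℕ) (A : Fin (n + 1) → GVar 𝒱)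
    (m : ∀ i, AddChar (A i).G ℂ → ℤ), (∀ i, InvAlg T (A i)) →
    (∀ i χ x, χ ≠ 1 → IsEig T (A i) χ x → (T.pq τ (A i).X).Above (m i χ) x) →
    ∀ (χ : AddChar (nest n A).G ℂ) (x : T.W.H (nest n A).X),
      (T.pq τ (nest n A).X).Above
        (∑ i, if cmp n A χ i = 1 then 0 else m i (cmp n A χ i)) (eg T (nest n A) χ x)
  | 0, A, m, hinv, htyp, χ, x => by
    have h1 : (∑ i, if cmp 0 A χ i = 1 then 0 else m i (cmp 0 A χ i)) =
        if χ = 1 then 0 else m 0 χ := by
      rw [Fin.sum_univ_one]
      rfl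
    rw [h1]
    by_cases h : χ = 1
    · rw [if_pos h]
      subst h
      exact above_of_alg T τ (hinv 0 x)
    · rw [if_neg h]
      exact htyp 0 χ _ h (eg_eigen T (A 0) χ x)
  | n + 1, A, m, hinv, htyp, χ, x => by
    have ih := types_nest τ n (fun i => A i.succ) (fun i => m i.succ) (fun i => hinv i.succ)
      (fun i => htyp i.succ) (c2 (A 0) (nest n fun i => A i.succ) χ)
    have h0 : ∀ a, (T.pq τ (A 0).X).Above
        (if c1 (A 0) (nest n fun i => A i.succ) χ = 1 then 0 else
          m 0 (c1 (A 0) (nest n fun i => A i.succ) χ))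
        (eg T (A 0) (c1 (A 0) (nest n fun i => A i.succ) χ) a) := by
      intro a
      by_cases h : c1 (A 0) (nest n fun i => A i.succ) χ = 1
      · rw [if_pos h, h]
        exact above_of_alg T τ (hinv 0 a)
      · rw [if_neg h]
        exact htyp 0 _ _ h (eg_eigen T (A 0) _ a)
    have h1 : (∑ i, if cmp (n + 1) A χ i = 1 then 0 else m i (cmp (n + 1) A χ i)) =
        (if c1 (A 0) (nest n fun i => A i.succ) χ = 1 then 0 else
          m 0 (c1 (A 0) (nest n fun i => A i.succ) χ)) +
        ∑ i : Fin (n + 1), if cmp n (fun i => A i.succ)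
          (c2 (A 0) (nest n fun i => A i.succ) χ) i = 1 then 0 else
          m i.succ (cmp n (fun i => A i.succ) (c2 (A 0) (nest n fun i => A i.succ) χ) i) := by
      rw [Fin.sum_univ_succ]
      rfl
    rw [h1]
    change T.W.H ((A 0).X.prod (nest n fun i => A i.succ).X) at x
    induction x using kn_ind T with
    | h0 => exact (map_zero (eg T (nest (n + 1) A) χ)).symm ▸ Submodule.zero_mem _
    | ha x y hx hy =>
      exact (map_add (eg T (nest (n + 1) A) χ) x y).symm ▸ Submodule.add_mem _ hx hy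
    | he a b =>
      have h2 := eg_prod T (A 0) (nest n fun i => A i.succ) χ a b
      exact h2.symm ▸ ex_above T τ (h0 a) (ih b)

/-- The form of the conditions which is used in the proofs. -/
structure Sys {n : ℕ} (A : Fin (n + 1) → GVar 𝒱) (m : T.E → ∀ i, AddChar (A i).G ℂ → ℤ) (M : ℤ) :
    Prop where
  inv : ∀ i, InvAlg T (A i)
  types : ∀ τ i χ x, χ ≠ 1 → IsEig T (A i) χ x → (T.pq τ (A i).X).Above (m τ i χ) x
  extreme : ∀ I : Finset (Fin (n + 1)), I.Nonempty → ∀ χ : ∀ i, AddChar (A i).G ℂ,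
    (∀ i ∈ I, χ i ≠ 1) → ∃ τ, M ≤ ∑ i ∈ I, m τ i (χ i)

lemma above_mono {τ : T.E} {m m' : ℤ} (h : m ≤ m') {x : T.W.H X} (hx : (T.pq τ X).Above m' x) :
    (T.pq τ X).Above m x := by
  rw [mem_above] at hx ⊢
  exact fun r hr => hx r fun h' => hr (h.trans h')

theorem isExt_nest (n : ℕ) (A : Fin (n + 1) → GVar 𝒱) (m : T.E → ∀ i, AddChar (A i).G ℂ → ℤ)
    {M : ℤ} (h : Sys T A m M) : IsExt T (nest n A) M := by
  classical
  intro χ hχ
  set I : Finset (Fin (n + 1)) := Finset.univ.filter fun i => cmp n A χ i ≠ 1 with hI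
  have hIne : I.Nonempty := by
    by_contra hne
    rw [Finset.not_nonempty_iff_eq_empty, Finset.filter_eq_empty_iff] at hne
    exact hχ (eq_one_of_cmp n A χ fun i => by
      have h1 := hne (Finset.mem_univ i)
      rwa [not_not] at h1)
  obtain ⟨τ, hτ⟩ := h.extreme I hIne (cmp n A χ) fun i hi => (Finset.mem_filter.1 hi).2
  refine ⟨τ, fun x hx => ?_⟩
  have h3 := types_nest T τ n A (m τ) h.inv (h.types τ) χ x
  rw [eg_of_eigen T _ _ hx] at h3
  refine above_mono T ?_ h3
  refine hτ.trans (le_of_eq ?_)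
  rw [hI, Finset.sum_filter]
  refine Finset.sum_congr rfl fun i _ => ?_
  by_cases hi : cmp n A χ i = 1
  · rw [if_neg (not_not.2 hi), if_pos hi]
  · rw [if_pos hi, if_neg hi]

/-! ### The conjectures -/

/-- A class on a product with an invariant first factor. -/
lemma mem_of_inv (hA : InvAlg T A) {c : T.W.H (A.X.prod Z)}
    (hc : ∀ χ : AddChar A.G ℂ, χ ≠ 1 → op1 T (eg T A χ) c = 0) :
    c ∈ Submodule.span T.W.K {x | ∃ a b, IsAlg T a ∧ ex T A.X Z a b = x} := by
  classical
  have h1 : op1 T (eg T A 1) c = c := by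
    conv_rhs => rw [← op1_eg_sum T A c]
    exact (Finset.sum_eq_single_of_mem _ (Finset.mem_univ _) fun χ _ hχ => hc χ hχ).symm
  rw [← h1]
  clear h1 hc
  induction c using kn_ind T with
  | h0 => rw [map_zero]; exact Submodule.zero_mem _
  | ha x y hx hy => rw [map_add]; exact Submodule.add_mem _ hx hy
  | he a b =>
    rw [op1_ex]
    exact Submodule.subset_span ⟨_, b, hA a, rfl⟩

/-- Algebraic classes of degree `2 w`. -/
lemma class_of_alg {w : ℕ} {c : T.W.H X} (hc : c ∈ T.W.gr X (2 * w)) (h : IsAlg T c) :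
    InSp T.W.K {c | IsClass T w c} c := by
  classical
  obtain ⟨C⟩ := exists_crd T X
  show c ∈ Submodule.span T.W.K {c | IsClass T w c}
  rw [C.dual c h]
  refine Submodule.sum_mem _ fun t _ => ?_
  by_cases ht : C.j t = w
  · exact Submodule.smul_mem _ _ (Submodule.subset_span (ht ▸ C.cls t))
  · have h2 : proj (T.W.isInternal X) (2 * C.j t) c = 0 := proj_ne _ hc (by omega)
    rw [C.dual c h, map_sum] at h2
    have h3 : ∀ t', proj (T.W.isInternal X) (2 * C.j t) (C.θ t' c • C.a t') =
        (if C.j t' = C.j t then C.θ t' c else 0) • C.a t' := by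
      intro t'
      rw [map_smul]
      by_cases h4 : C.j t' = C.j t
      · have h5 : C.a t' ∈ T.W.gr X (2 * C.j t) := h4 ▸ class_mem (C.cls t')
        rw [if_pos h4, proj_same _ h5]
      · rw [if_neg h4, proj_ne _ (class_mem (C.cls t')) (by omega), smul_zero, zero_smul]
    rw [Finset.sum_congr rfl fun t' _ => h3 t'] at h2
    have h5 := Fintype.linearIndependent_iff.1 C.indep _ h2 t
    rw [if_pos rfl] at h5
    rw [h5, zero_smul]
    exact Submodule.zero_mem _

/-- The Tate conjecture for `X × Z` implies it for `Z`. -/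
lemma tate_of_prod (h : TateConjecture T (X.prod Z)) : TateConjecture T Z := by
  intro j c hc
  obtain ⟨y, hy, hdeg⟩ := T.point X
  have h2 : IsTate T j (T.W.map (snd X Z) c) := by
    refine ⟨T.W.map_mem _ hc.degree, ?_⟩
    refine pot_mono (pot_and hc.fixed (T.equi _ _ (snd X Z))) fun g hg => ?_
    rw [hg.2, hg.1, map_smul]
  have h3 := h j _ h2
  have h4 : ∀ x ∈ Submodule.span T.W.K {c : T.W.H (X.prod Z) | IsClass T j c},
      T.W.push (snd X Z) (T.W.map (fst X Z) (T.W.cl X y) * x) ∈
        Submodule.span T.W.K {c : T.W.H Z | IsClass T j c} := by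
    intro x hx
    induction hx using Submodule.span_induction with
    | mem x hx =>
      obtain ⟨z, hz, rfl⟩ := hx
      refine Submodule.subset_span ⟨ops.push (snd X Z) (ops.mul (ops.pull (fst X Z) y) z), ?_, ?_⟩
      · refine ops.push_mem _ (ops.mul_mem (ops.pull_mem _ hy) hz) ?_
        rw [dim_prod]
        ring
      · rw [T.W.cl_push, T.W.cl_mul, T.W.cl_pull]
    | zero => rw [mul_zero, map_zero]; exact Submodule.zero_mem _
    | add x y _ _ hx hy => rw [mul_add, map_add]; exact Submodule.add_mem _ hx hy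
    | smul r x _ hx => rw [mul_smul_comm, map_smul]; exact Submodule.smul_mem _ _ hx
  have h5 := h4 _ h3
  rw [T.W.push_snd, T.W.tr_cl hy] at h5
  refine (Submodule.smul_mem_iff _ ?_).1 h5
  exact_mod_cast hdeg

/-- Sums of products of algebraic and Tate classes. -/
lemma tate_of_sums (hZ : TateConjecture T Z) (h : AreSums T X Z) :
    TateConjecture T (X.prod Z) := by
  intro w c hc
  have h1 := h w c hc
  refine (Submodule.span_le.2 ?_ : Submodule.span T.W.K {c | IsProduct T X Z w c} ≤
    Submodule.span T.W.K {c | IsClass T w c}) h1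
  rintro _ ⟨hjl, ha, hb⟩
  rename_i j l a b
  obtain ⟨z, hz, rfl⟩ := ha
  have h2 : ∀ b' ∈ Submodule.span T.W.K {c : T.W.H Z | IsClass T l c},
      mul2 (T.W.map (fst X Z)) (T.W.map (snd X Z)) (T.W.cl X z) b' ∈
        Submodule.span T.W.K {c : T.W.H (X.prod Z) | IsClass T w c} := by
    intro b' hb'
    induction hb' using Submodule.span_induction with
    | mem b' hb' =>
      obtain ⟨y, hy, rfl⟩ := hb'
      refine Submodule.subset_span ⟨ops.mul (ops.pull (fst X Z) z) (ops.pull (snd X Z) y),
        hjl ▸ ops.mul_mem (ops.pull_mem _ hz) (ops.pull_mem _ hy), ?_⟩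
      rw [T.W.cl_mul, T.W.cl_pull, T.W.cl_pull]
      rfl
    | zero => rw [mul2, map_zero, mul_zero]; exact Submodule.zero_mem _
    | add x y _ _ hx hy => rw [mul2, map_add, mul_add]; exact Submodule.add_mem _ hx hy
    | smul r x _ hx => rw [mul2, map_smul, mul_smul_comm]; exact Submodule.smul_mem _ _ hx
  exact h2 _ (hZ l b hb)

theorem main_int {n : ℕ} (A : Fin (n + 1) → GVar 𝒱) (m : T.E → ∀ i, AddChar (A i).G ℂ → ℤ)
    (M : ℤ) (hM : 0 < M) (h : Sys T A m M) :
    TateConjecture T (product n A) ∧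
    ∀ Z : 𝒱.Obj, IsOfLevelLess T M Z ∨ IsUnrelated T M Z →
      AreSums T (product n A) Z ∧
      (TateConjecture T ((product n A).prod Z) ↔ TateConjecture T Z) := by
  classical
  have hext := isExt_nest T n A m h
  have hinv := invAlg_nest T n A h.inv
  have key : TateConjecture T (nest n A).X ∧
    ∀ Z : 𝒱.Obj, IsOfLevelLess T M Z ∨ IsUnrelated T M Z →
      AreSums T (nest n A).X Z ∧
      (TateConjecture T ((nest n A).X.prod Z) ↔ TateConjecture T Z) := by
    constructor
    · intro w c hc
      refine class_of_alg T hc.degree ?_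
      have h1 : eg T (nest n A) 1 c = c := by
        conv_rhs => rw [← eg_sum T (nest n A) c]
        exact (Finset.sum_eq_single_of_mem _ (Finset.mem_univ _) fun χ _ hχ =>
          comp_eq_zero' T (nest n A) hM hext hc hχ).symm
      rw [← h1]
      exact hinv c
    · intro Z hZ
      have hZ' : IsUnrelated T M Z := hZ.elim (fun h => unrelated_of_level T h) id
      have h1 : AreSums T (nest n A).X Z := fun w c hc =>
        sum_of_alg hc (mem_of_inv T (nest n A) hinv fun χ hχ =>
          comp_eq_zero T (nest n A) hext hZ' hc hχ)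
      exact ⟨h1, tate_of_prod T, fun h2 => tate_of_sums T h2 h1⟩
  rwa [nest_X] at key

lemma isTrivial_iff {G : Type} [AddCommGroup G] (χ : Chr G) :
    χ.IsTrivial ↔ (show AddChar G ℂ from χ) = 1 := by
  constructor
  · intro h
    exact DFunLike.ext _ _ fun g => (h g).trans (AddChar.one_apply g).symm
  · intro h g
    exact (DFunLike.congr_fun h g).trans (AddChar.one_apply g)

/-- **The main theorem.** -/
theorem main {n : ℕ} (A : Fam 𝒱 n) (m : T.E → ∀ i, (A i).Ch → ℤ) (M : ℤ) (hM : 0 < M)
    (h : IsSystem T A m) (hE : IsExtreme A m M) :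
    TateConjecture T (product n A) ∧
    ∀ Z : 𝒱.Obj, IsOfLevelLess T M Z ∨ IsUnrelated T M Z →
      AreSums T (product n A) Z ∧
      (TateConjecture T ((product n A).prod Z) ↔ TateConjecture T Z) := by
  refine main_int T A m M hM ⟨fun i => invAlg_of T (h.invariants i), fun τ i χ x hχ hx => ?_,
    fun I hI χ hχ => ?_⟩
  · exact h.types τ i χ x (fun h => hχ ((isTrivial_iff χ).1 h)) hx
  · exact hE I hI χ fun i hi h1 => hχ i hi ((isTrivial_iff (χ i)).1 h1)

end Pool.Agent.U222.TT
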