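import Pool.Agent.U222.TT.Lay
import Pool.Agent.U222.HC.Nest

/-!
# Eigenvectors of finite abelian groups
-/

set_option autoImplicit false

open CategoryTheory AlgebraicGeometry TensorProduct

universe u

namespace Pool.Agent.U222.TT

open Pool.Agent.H914 Pool.Agent.H914.VarClass Pool.Agent.H914.VarClass.Obj Pool.Agent.U222.HC
open Pool.Agent.U222.HC.I (pmap pmap_id pmap_comp gprod c1 c2 c_mul nest nest_X cmp eq_one_of_cmp)

variable {k : Type u} [Field k] {𝒱 : VarClass k} {ops : CycleOps 𝒱} (T : TateTheory ops)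
  {X Y Z V : 𝒱.Obj} (A B : GVar 𝒱)

/-- The value of a character in the field of coefficients. -/
noncomputable def ev {G : Type} [AddCommGroup G] (χ : AddChar G ℂ) (g : G) : T.W.K :=
  T.iso.symm (χ g)

lemma ev_add {G : Type} [AddCommGroup G] (χ : AddChar G ℂ) (g h : G) :
    ev T χ (g + h) = ev T χ g * ev T χ h := by
  rw [ev, AddChar.map_add_eq_mul, map_mul]
  rfl

lemma ev_zero {G : Type} [AddCommGroup G] (χ : AddChar G ℂ) : ev T χ 0 = 1 := by
  rw [ev, AddChar.map_zero_eq_one, map_one]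

/-- The class `x` is an eigenvector of the group with the character `χ`. -/
def IsEig (χ : AddChar A.G ℂ) (x : T.W.H A.X) : Prop :=
  ∀ g, T.W.map (A.act g) x = ev T χ g • x

/-- The projection to the eigenvectors with the character `χ`. -/
noncomputable def eg (χ : AddChar A.G ℂ) : T.W.H A.X →ₗ[T.W.K] T.W.H A.X :=
  (Fintype.card A.G : T.W.K)⁻¹ • ∑ g, ev T χ (-g) • (T.W.map (A.act g)).toLinearMap

lemma eg_apply (χ : AddChar A.G ℂ) (x : T.W.H A.X) :
    eg T A χ x = (Fintype.card A.G : T.W.K)⁻¹ • ∑ g, ev T χ (-g) • T.W.map (A.act g) x := by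
  rw [eg, LinearMap.smul_apply, LinearMap.sum_apply]
  rfl

lemma card_ne : (Fintype.card A.G : T.W.K) ≠ 0 := Nat.cast_ne_zero.2 Fintype.card_ne_zero

lemma eg_eigen (χ : AddChar A.G ℂ) (x : T.W.H A.X) : IsEig T A χ (eg T A χ x) := by
  intro h
  rw [eg_apply, map_smul, map_sum, smul_comm (ev T χ h)]
  congr 1
  rw [Finset.smul_sum]
  refine Fintype.sum_equiv (Equiv.addLeft h) (fun g => T.W.map (A.act h)
      (ev T χ (-g) • T.W.map (A.act g) x))
    (fun g => ev T χ h • (ev T χ (-g) • T.W.map (A.act g) x)) fun g => ?_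
  show T.W.map (A.act h) (ev T χ (-g) • T.W.map (A.act g) x) =
    ev T χ h • (ev T χ (-(h + g)) • T.W.map (A.act (h + g)) x)
  rw [map_smul, ← T.W.map_comp, ← A.act_add, smul_smul]
  congr 1
  rw [← ev_add]
  congr 1
  abel

lemma eg_of_eigen (χ : AddChar A.G ℂ) {x : T.W.H A.X} (hx : IsEig T A χ x) :
    eg T A χ x = x := by
  rw [eg_apply]
  have h : ∀ g : A.G, ev T χ (-g) • T.W.map (A.act g) x = x := fun g => by
    rw [hx g, smul_smul, ← ev_add, neg_add_cancel, ev_zero, one_smul]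
  rw [Finset.sum_congr rfl fun g _ => h g, Finset.sum_const, Finset.card_univ,
    ← Nat.cast_smul_eq_nsmul T.W.K, smul_smul, inv_mul_cancel₀ (card_ne T A), one_smul]

lemma eg_sum (x : T.W.H A.X) : ∑ χ : AddChar A.G ℂ, eg T A χ x = x := by
  classical
  rw [Finset.sum_congr rfl fun χ _ => eg_apply T A χ x, ← Finset.smul_sum, Finset.sum_comm]
  have h : ∀ g : A.G, ∑ χ : AddChar A.G ℂ, ev T χ (-g) • T.W.map (A.act g) x =
      if g = 0 then (Fintype.card A.G : T.W.K) • x else 0 := fun g => by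
    have h1 : ∑ χ : AddChar A.G ℂ, ev T χ (-g) = T.iso.symm (∑ χ : AddChar A.G ℂ, χ (-g)) := by
      rw [map_sum]
      rfl
    rw [← Finset.sum_smul, h1, AddChar.sum_apply_eq_ite]
    by_cases hg : g = 0
    · rw [if_pos hg, if_pos (by rw [hg, neg_zero]), hg, A.act_zero, T.W.map_id, map_natCast]
    · rw [if_neg hg, if_neg (by rwa [neg_eq_zero]), map_zero, zero_smul]
  rw [Finset.sum_congr rfl fun g _ => h g, Finset.sum_ite_eq' Finset.univ (0 : A.G),
    if_pos (Finset.mem_univ _), smul_smul, inv_mul_cancel₀ (card_ne T A), one_smul]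

lemma map_ex (f : X ⟶ Y) (g : Z ⟶ V) (a : T.W.H Y) (b : T.W.H V) :
    T.W.map (pmap f g) (ex T Y V a b) = ex T X Z (T.W.map f a) (T.W.map g b) := by
  rw [ex_apply, ex_apply, map_mul, ← T.W.map_comp, ← T.W.map_comp,
    ← T.W.map_comp, ← T.W.map_comp, pmap, lift_fst, lift_snd]

lemma ex_sum2 {I J : Type} [Fintype I] [Fintype J] (u : I → T.W.K) (v : J → T.W.K)
    (P : I → T.W.H X) (Q : J → T.W.H Y) :
    ex T X Y (∑ g, u g • P g) (∑ h, v h • Q h) = ∑ g, ∑ h, (u g * v h) • ex T X Y (P g) (Q h) := by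
  rw [map_sum (ex T X Y) _ _, LinearMap.sum_apply]
  refine Finset.sum_congr rfl fun g _ => ?_
  rw [map_smul (ex T X Y), LinearMap.smul_apply, map_sum (ex T X Y (P g)), Finset.smul_sum]
  refine Finset.sum_congr rfl fun h _ => ?_
  rw [map_smul (ex T X Y (P g)), smul_smul]

lemma eg_prod (χ : AddChar (gprod A B).G ℂ) (a : T.W.H A.X) (b : T.W.H B.X) :
    eg T (gprod A B) χ (ex T A.X B.X a b) =
      ex T A.X B.X (eg T A (c1 A B χ) a) (eg T B (c2 A B χ) b) := by
  rw [eg_apply, eg_apply, eg_apply]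
  have hc : (Fintype.card (gprod A B).G : T.W.K) = Fintype.card A.G * Fintype.card B.G := by
    have h1 : Fintype.card (gprod A B).G = Fintype.card (A.G × B.G) := rfl
    rw [h1, Fintype.card_prod, Nat.cast_mul]
  rw [hc, mul_inv, map_smul (ex T A.X B.X), LinearMap.smul_apply,
    map_smul (ex T A.X B.X (∑ g, ev T (c1 A B χ) (-g) • (T.W.map (A.act g)) a)), smul_smul]
  congr 1
  rw [ex_sum2]
  have h2 : (∑ g : (gprod A B).G, ev T χ (-g) • T.W.map ((gprod A B).act g) (ex T A.X B.X a b)) =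
      ∑ g : A.G × B.G, (ev T (c1 A B χ) (-g.1) * ev T (c2 A B χ) (-g.2)) •
        ex T A.X B.X (T.W.map (A.act g.1) a) (T.W.map (B.act g.2) b) := by
    refine Finset.sum_congr rfl fun g _ => ?_
    have h3 : ev T χ (-g) = ev T (c1 A B χ) (-g.1) * ev T (c2 A B χ) (-g.2) := by
      rw [ev, ev, ev, ← map_mul, ← c_mul]
      rfl
    rw [← h3]
    exact congrArg (fun y => ev T χ (-g) • y) (map_ex T (A.act g.1) (B.act g.2) a b)
  rw [h2, Fintype.sum_prod_type]

lemma op1_eg (χ : AddChar A.G ℂ) (x : T.W.H (A.X.prod Y)) :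
    op1 T (eg T A χ) x =
      (Fintype.card A.G : T.W.K)⁻¹ • ∑ g, ev T χ (-g) • T.W.map (pmap (A.act g) (𝟙 Y)) x := by
  have h : (op1 T (eg T A χ) : T.W.H (A.X.prod Y) →ₗ[T.W.K] T.W.H (A.X.prod Y)) =
      (Fintype.card A.G : T.W.K)⁻¹ • ∑ g, ev T χ (-g) •
        (T.W.map (pmap (A.act g) (𝟙 Y))).toLinearMap := by
    refine lin_ext T fun a b => ?_
    rw [op1_ex, eg_apply, map_smul, map_sum, LinearMap.smul_apply, LinearMap.smul_apply,
      LinearMap.sum_apply, LinearMap.sum_apply]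
    congr 1
    refine Finset.sum_congr rfl fun g _ => ?_
    rw [map_smul, LinearMap.smul_apply, LinearMap.smul_apply]
    congr 1
    have h1 := map_ex T (A.act g) (𝟙 Y) a b
    rw [T.W.map_id] at h1
    exact h1.symm
  rw [h, LinearMap.smul_apply, LinearMap.sum_apply]
  rfl

lemma op1_eg_sum (x : T.W.H (A.X.prod Y)) :
    ∑ χ : AddChar A.G ℂ, op1 T (eg T A χ) x = x := by
  have h : (∑ χ : AddChar A.G ℂ, op1 T (eg T A χ) :
      T.W.H (A.X.prod Y) →ₗ[T.W.K] T.W.H (A.X.prod Y)) = LinearMap.id := by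
    refine lin_ext T fun a b => ?_
    rw [LinearMap.sum_apply, Finset.sum_congr rfl fun χ _ => op1_ex T (eg T A χ) a b,
      ← LinearMap.sum_apply, ← map_sum, eg_sum, LinearMap.id_apply]
  have h1 := LinearMap.congr_fun h x
  rw [LinearMap.sum_apply] at h1
  exact h1

/-! ### Subgroups of finite index -/

lemma pot_and {Γ : Type} [Group Γ] {P Q : Γ → Prop} (hP : Pot P) (hQ : Pot Q) :
    Pot fun g => P g ∧ Q g := by
  obtain ⟨Δ, h1, h2⟩ := hP
  obtain ⟨Δ', h1', h2'⟩ := hQ
  exact ⟨Δ ⊓ Δ', inferInstance, fun g hg => ⟨h2 g hg.1, h2' g hg.2⟩⟩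

lemma pot_mono {Γ : Type} [Group Γ] {P Q : Γ → Prop} (hP : Pot P) (h : ∀ g, P g → Q g) :
    Pot Q := by
  obtain ⟨Δ, h1, h2⟩ := hP
  exact ⟨Δ, h1, fun g hg => h g (h2 g hg)⟩

lemma pot_true {Γ : Type} [Group Γ] {P : Γ → Prop} (h : ∀ g, P g) : Pot P :=
  ⟨⊤, inferInstance, fun g _ => h g⟩

lemma pot_all {Γ : Type} [Group Γ] {I : Type} [Fintype I] {P : I → Γ → Prop}
    (h : ∀ i, Pot (P i)) : Pot fun g => ∀ i, P i g := by
  classical
  have h1 : ∀ s : Finset I, Pot fun g => ∀ i ∈ s, P i g := by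
    intro s
    induction s using Finset.induction_on with
    | empty => exact pot_true fun g i hi => absurd hi (Finset.notMem_empty i)
    | insert i s _ ih =>
      refine pot_mono (pot_and (h i) ih) fun g hg j hj => ?_
      rcases Finset.mem_insert.1 hj with rfl | hj
      · exact hg.1
      · exact hg.2 j hj
  exact pot_mono (h1 Finset.univ) fun g hg i => hg i (Finset.mem_univ i)

/-- The action on external products. -/
lemma act_ex (X Y : 𝒱.Obj) : Pot fun g => ∀ (a : T.W.H X) (b : T.W.H Y),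
    T.act (X.prod Y) g (ex T X Y a b) = ex T X Y (T.act X g a) (T.act Y g b) := by
  refine pot_mono (pot_and (T.equi _ _ (fst X Y)) (T.equi _ _ (snd X Y))) fun g hg a b => ?_
  rw [ex_apply, map_mul, hg.1, hg.2, ex_apply]

/-- The actions on the cohomology of a product commute with the eigenprojections. -/
lemma act_eg (χ : AddChar A.G ℂ) : Pot fun g => ∀ x : T.W.H A.X,
    T.act A.X g (eg T A χ x) = eg T A χ (T.act A.X g x) := by
  refine pot_mono (pot_all fun h => T.equi _ _ (A.act h)) fun g hg x => ?_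
  rw [eg_apply, eg_apply, map_smul, map_sum]
  congr 1
  refine Finset.sum_congr rfl fun h _ => ?_
  rw [map_smul, hg h]

/-- The coefficients of a twisted class are stable. -/
lemma act_ctr (X Y : 𝒱.Obj) : Pot fun g => ∀ (θ : T.W.H X →ₗ[T.W.K] T.W.K) (x : T.W.H (X.prod Y)),
    T.act Y g (ctr T θ x) =
      ctr T (θ ∘ₗ (T.act X g).symm.toLinearMap) (T.act (X.prod Y) g x) := by
  refine pot_mono (act_ex T X Y) fun g hg θ x => ?_
  induction x using kn_ind T with
  | h0 => rw [map_zero, map_zero, map_zero, map_zero]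
  | ha x y hx hy => rw [map_add, map_add, map_add, map_add, hx, hy]
  | he a b =>
    rw [ctr_ex, map_smul, hg, ctr_ex, LinearMap.comp_apply]
    congr 2
    exact ((T.act X g).symm_apply_apply a).symm

end Pool.Agent.U222.TT
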