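import Pool.Agent.U222.TT.Act

/-!
# The coefficients of Tate classes, sums of products
-/

set_option autoImplicit false

open CategoryTheory AlgebraicGeometry TensorProduct

universe u

namespace Pool.Agent.U222.TT

open Pool.Agent.H914 Pool.Agent.H914.VarClass Pool.Agent.H914.VarClass.Obj Pool.Agent.U222.HC
open Pool.Agent.U222.HC.I (pmap pmap_id pmap_comp gprod c1 c2 c_mul nest nest_X cmp eq_one_of_cmp)

variable {k : Type u} [Field k] {𝒱 : VarClass k} {ops : CycleOps 𝒱} (T : TateTheory ops)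
  {X Y Z V : 𝒱.Obj} (A B : GVar 𝒱)

lemma ctr_add (θ φ : T.W.H X →ₗ[T.W.K] T.W.K) (x : T.W.H (X.prod Y)) :
    ctr T (θ + φ) x = ctr T θ x + ctr T φ x := by
  induction x using kn_ind T with
  | h0 => rw [map_zero, map_zero, map_zero, add_zero]
  | ha x y hx hy =>
    rw [map_add, map_add, map_add, hx, hy]
    abel
  | he a b => rw [ctr_ex, ctr_ex, ctr_ex, LinearMap.add_apply, add_smul]

lemma ctr_smul (z : T.W.K) (θ : T.W.H X →ₗ[T.W.K] T.W.K) (x : T.W.H (X.prod Y)) :
    ctr T (z • θ) x = z • ctr T θ x := by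
  induction x using kn_ind T with
  | h0 => rw [map_zero, map_zero, smul_zero]
  | ha x y hx hy => rw [map_add, map_add, hx, hy, smul_add]
  | he a b => rw [ctr_ex, ctr_ex, LinearMap.smul_apply, smul_assoc]

lemma ctr_zero (x : T.W.H (X.prod Y)) : ctr T (0 : T.W.H X →ₗ[T.W.K] T.W.K) x = 0 := by
  have h := ctr_smul T 0 (0 : T.W.H X →ₗ[T.W.K] T.W.K) x
  rw [zero_smul, zero_smul] at h
  exact h

/-- The space of the coefficients of a class on a product. -/
noncomputable def cof (x : T.W.H (X.prod Y)) : Submodule T.W.K (T.W.H Y) where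
  carrier := {y | ∃ θ, ctr T θ x = y}
  add_mem' := by
    rintro _ _ ⟨θ, rfl⟩ ⟨φ, rfl⟩
    exact ⟨θ + φ, ctr_add T θ φ x⟩
  zero_mem' := ⟨0, ctr_zero T x⟩
  smul_mem' := by
    rintro z _ ⟨θ, rfl⟩
    exact ⟨z • θ, ctr_smul T z θ x⟩

/-- For each nontrivial character there is an embedding for which the eigenvectors are sums of
classes of types `(p, q)` with `p - q ≥ M`. -/
def IsExt (M : ℤ) : Prop := ∀ χ : AddChar A.G ℂ, χ ≠ 1 → ∃ τ : T.E, ∀ x,
  IsEig T A χ x → (T.pq τ A.X).Above M x

/-- The component of a Tate class is a Tate class. -/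
lemma isTate_op1 {w : ℕ} {c : T.W.H (A.X.prod Z)} (hc : IsTate T w c) (χ : AddChar A.G ℂ) :
    IsTate T w (op1 T (eg T A χ) c) := by
  constructor
  · rw [op1_eg]
    exact Submodule.smul_mem _ _ (Submodule.sum_mem _ fun g _ => Submodule.smul_mem _ _
      (T.W.map_mem _ hc.degree))
  · refine pot_mono (pot_and hc.fixed
      (pot_all fun h => T.equi _ _ (pmap (A.act h) (𝟙 Z)))) fun g hg => ?_
    rw [op1_eg, map_smul, map_sum, smul_comm]
    congr 1
    rw [Finset.smul_sum]
    refine Finset.sum_congr rfl fun h _ => ?_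
    rw [map_smul, hg.2 h, hg.1, map_smul, smul_comm]

/-- The component of a Tate class is a Tate class. -/
lemma isTate_eg {w : ℕ} {c : T.W.H A.X} (hc : IsTate T w c) (χ : AddChar A.G ℂ) :
    IsTate T w (eg T A χ c) := by
  constructor
  · rw [eg_apply]
    exact Submodule.smul_mem _ _ (Submodule.sum_mem _ fun g _ => Submodule.smul_mem _ _
      (T.W.map_mem _ hc.degree))
  · refine pot_mono (pot_and hc.fixed
      (pot_all fun h => T.equi _ _ (A.act h))) fun g hg => ?_
    rw [eg_apply, map_smul, map_sum, smul_comm]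
    congr 1
    rw [Finset.smul_sum]
    refine Finset.sum_congr rfl fun h _ => ?_
    rw [map_smul, hg.2 h, hg.1, map_smul, smul_comm]

/-- **The vanishing of the components of Tate classes with nontrivial characters.** -/
theorem comp_eq_zero {M : ℤ} (hA : IsExt T A M) (hZ : IsUnrelated T M Z) {w : ℕ}
    {c : T.W.H (A.X.prod Z)} (hc : IsTate T w c) {χ : AddChar A.G ℂ} (hχ : χ ≠ 1) :
    op1 T (eg T A χ) c = 0 := by
  obtain ⟨τ, hτ⟩ := hA χ hχ
  have hx := isTate_op1 T A hc χ
  set x := op1 T (eg T A χ) c with hxdef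
  have hxt : x ∈ ty T τ (A.X.prod Z) ((w : ℤ), (w : ℤ)) := T.tate τ _ w x hx.degree hx.fixed
  refine eq_zero_of_ctr T fun θ => ?_
  refine hZ (cof T x) τ ?_ ?_ _ ⟨θ, rfl⟩
  · refine pot_mono (pot_and hx.fixed (act_ctr T A.X Z)) fun g hg y hy => ?_
    obtain ⟨φ, rfl⟩ := hy
    rw [hg.2, hg.1, map_smul, ← ctr_smul]
    exact ⟨_, rfl⟩
  · rintro _ ⟨φ, rfl⟩
    rw [mem_below]
    intro s hs
    rw [pr_ctr T τ hxt s, ← ctr_op1]
    have h0 : ∀ y : T.W.H (A.X.prod Z),
        op1 T (pr T τ A.X (((w : ℤ), (w : ℤ)) - s)) (op1 T (eg T A χ) y) = 0 := by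
      intro y
      induction y using kn_ind T with
      | h0 => rw [map_zero, map_zero]
      | ha x y hx hy => rw [map_add, map_add, hx, hy, add_zero]
      | he a b =>
        rw [op1_ex, op1_ex, (mem_above T τ).1 (hτ _ (eg_eigen T A χ a)) _ ?_, map_zero,
          LinearMap.zero_apply]
        show ¬ M ≤ ((w : ℤ) - s.1) - (w - s.2)
        intro h
        apply hs
        linarith
    rw [hxdef, h0, map_zero]

/-- The vanishing of the components of Tate classes on the variety itself. -/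
theorem comp_eq_zero' {M : ℤ} (hM : 0 < M) (hA : IsExt T A M) {w : ℕ} {c : T.W.H A.X}
    (hc : IsTate T w c) {χ : AddChar A.G ℂ} (hχ : χ ≠ 1) : eg T A χ c = 0 := by
  obtain ⟨τ, hτ⟩ := hA χ hχ
  have hx := isTate_eg T A hc χ
  exact eq_zero_of_above T τ hM (w := w) (T.tate τ _ w _ hx.degree hx.fixed)
    (hτ _ (eg_eigen T A _ _))

/-- Varieties of small level are unrelated. -/
theorem unrelated_of_level {M : ℤ} (h : IsOfLevelLess T M Z) : IsUnrelated T M Z := by
  intro U τ _ hb x hx
  have h1 : (⨆ r : {r : ℤ × ℤ // r.1 - r.2 ≤ -M}, T.pq τ Z r.1.1 r.1.2) ≤ ⊥ := by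
    refine iSup_le fun r y hy => ?_
    rw [Submodule.mem_bot]
    refine h τ _ _ y hy ?_
    have h1 := r.2
    rw [abs_sub_comm]
    refine le_trans ?_ (le_abs_self _)
    linarith
  exact (Submodule.mem_bot _).1 (h1 (hb x hx))

/-! ### Sums of products -/

/-- The class `x` is a linear combination of classes of algebraic cycles. -/
def IsAlg (x : T.W.H X) : Prop := x ∈ Submodule.span T.W.K {c | ∃ j, IsClass T j c}

/-- A system of coordinates on the algebraic classes of `X`. -/
structure Crd (X : 𝒱.Obj) where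
  /-- the number of the classes -/
  r : ℕ
  /-- the codimensions -/
  j : Fin r → ℕ
  /-- the classes -/
  a : Fin r → T.W.H X
  cls : ∀ t, IsClass T (j t) (a t)
  indep : LinearIndependent T.W.K a
  /-- the coordinates -/
  θ : Fin r → T.W.H X →ₗ[T.W.K] T.W.K
  dual : ∀ x : T.W.H X, IsAlg T x → x = ∑ t, θ t x • a t

lemma exists_crd (X : 𝒱.Obj) : Nonempty (Crd T X) := by
  classical
  obtain ⟨b, hb, hspan, hli⟩ := exists_linearIndependent T.W.K
    {c : T.W.H X | ∃ j, IsClass T j c}
  have hfin : b.Finite := hli.setFinite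
  have := hfin.to_subtype
  obtain ⟨r, ⟨f⟩⟩ := Finite.exists_equiv_fin b
  have h1 : ∀ t : Fin r, ∃ j, IsClass T j (f.symm t : T.W.H X) := fun t => hb (f.symm t).2
  choose j hj using h1
  have hli' : LinearIndependent T.W.K (fun t => (f.symm t : T.W.H X)) :=
    hli.comp f.symm f.symm.injective
  obtain ⟨g, hg⟩ := (Fintype.linearCombination T.W.K
    (fun t => (f.symm t : T.W.H X))).exists_leftInverse_of_injective
    (LinearMap.ker_eq_bot.2 (linearIndependent_iff_injective_fintypeLinearCombination.1 hli'))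
  refine ⟨⟨r, j, fun t => f.symm t, hj, hli', fun t => LinearMap.proj t ∘ₗ g, fun x hx => ?_⟩⟩
  have hx' : x ∈ Submodule.span T.W.K (Set.range fun t => (f.symm t : T.W.H X)) := by
    have h2 : (Set.range fun t => (f.symm t : T.W.H X)) = b := by
      ext y
      constructor
      · rintro ⟨t, rfl⟩
        exact (f.symm t).2
      · intro hy
        exact ⟨f ⟨y, hy⟩, by simp only [Equiv.symm_apply_apply]⟩
    rw [h2, hspan]
    exact hx
  obtain ⟨ρ, hρ⟩ := (Submodule.mem_span_range_iff_exists_fun T.W.K).1 hx'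
  have h1 := LinearMap.congr_fun hg ρ
  rw [LinearMap.comp_apply, Fintype.linearCombination_apply, LinearMap.id_apply, hρ] at h1
  conv_lhs => rw [← hρ]
  refine Finset.sum_congr rfl fun t _ => ?_
  rw [LinearMap.comp_apply, h1, LinearMap.proj_apply]

variable {T}

/-- The projections to the degrees. -/
lemma proj_ex {j : ℕ} {a : T.W.H X} (ha : a ∈ T.W.gr X j) (n : ℕ) (b : T.W.H Z) :
    proj (T.W.isInternal (X.prod Z)) (j + n) (ex T X Z a b) =
      ex T X Z a (proj (T.W.isInternal Z) n b) := by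
  refine gr_induction (T.W.isInternal Z) (p := fun b =>
    proj (T.W.isInternal (X.prod Z)) (j + n) (ex T X Z a b) =
      ex T X Z a (proj (T.W.isInternal Z) n b)) ?_ ?_ b
  · intro i b hb
    have h1 : ex T X Z a b ∈ T.W.gr (X.prod Z) (j + i) :=
      T.W.mul_mem (T.W.map_mem _ ha) (T.W.map_mem _ hb)
    by_cases h : i = n
    · subst h
      rw [proj_same _ h1, proj_same _ hb]
    · rw [proj_ne _ h1 (by omega), proj_ne _ hb h, map_zero]
  · intro b b' hb hb'
    rw [map_add, map_add, map_add, map_add, hb, hb']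

lemma proj_ex_lt {j n : ℕ} (hn : n < j) {a : T.W.H X} (ha : a ∈ T.W.gr X j) (b : T.W.H Z) :
    proj (T.W.isInternal (X.prod Z)) n (ex T X Z a b) = 0 := by
  refine gr_induction (T.W.isInternal Z) (p := fun b =>
    proj (T.W.isInternal (X.prod Z)) n (ex T X Z a b) = 0) ?_ ?_ b
  · intro i b hb
    have h1 : ex T X Z a b ∈ T.W.gr (X.prod Z) (j + i) :=
      T.W.mul_mem (T.W.map_mem _ ha) (T.W.map_mem _ hb)
    exact proj_ne _ h1 (by omega)
  · intro b b' hb hb'
    rw [map_add, map_add, hb, hb', add_zero]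

lemma class_mem {j : ℕ} {a : T.W.H X} (ha : IsClass T j a) : a ∈ T.W.gr X (2 * j) := by
  obtain ⟨z, hz, rfl⟩ := ha
  exact T.W.cl_mem hz

lemma class_twisted {j : ℕ} {a : T.W.H X} (ha : IsClass T j a) :
    IsTwisted (T.act X) T.cyc j a := by
  obtain ⟨z, hz, rfl⟩ := ha
  exact T.cl X j z hz

/-- **Tate classes which are sums of products with algebraic first factor.** -/
theorem sum_of_alg {w : ℕ} {c : T.W.H (X.prod Z)} (hc : IsTate T w c)
    (h : c ∈ Submodule.span T.W.K {x | ∃ a b, IsAlg T a ∧ ex T X Z a b = x}) :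
    InSp T.W.K {c | IsProduct T X Z w c} c := by
  classical
  obtain ⟨C⟩ := exists_crd T X
  have h1 : c = ∑ t, ex T X Z (C.a t) (ctr T (C.θ t) c) := by
    clear hc
    induction h using Submodule.span_induction with
    | mem x hx =>
      obtain ⟨y, b, hy, rfl⟩ := hx
      conv_lhs => rw [C.dual y hy]
      rw [map_sum, LinearMap.sum_apply]
      refine Finset.sum_congr rfl fun t _ => ?_
      rw [map_smul, LinearMap.smul_apply, ctr_ex, map_smul]
    | zero => rw [Finset.sum_congr rfl fun t _ => by rw [map_zero, map_zero], Finset.sum_const_zero]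
    | add x y _ _ hx hy =>
      have h1 : ∀ t, ex T X Z (C.a t) (ctr T (C.θ t) (x + y)) =
          ex T X Z (C.a t) (ctr T (C.θ t) x) + ex T X Z (C.a t) (ctr T (C.θ t) y) := by
        intro t
        rw [map_add, map_add]
      rw [Finset.sum_congr rfl fun t _ => h1 t, Finset.sum_add_distrib, ← hx, ← hy]
    | smul z x _ hx =>
      have h1 : ∀ t, ex T X Z (C.a t) (ctr T (C.θ t) (z • x)) =
          z • ex T X Z (C.a t) (ctr T (C.θ t) x) := by
        intro t
        rw [map_smul, map_smul]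
      rw [Finset.sum_congr rfl fun t _ => h1 t, ← Finset.smul_sum, ← hx]
  set b : Fin C.r → T.W.H Z := fun t => ctr T (C.θ t) c with hb
  -- the degrees of the coefficients
  have hdeg : ∀ t i, 2 * C.j t + i ≠ 2 * w → proj (T.W.isInternal Z) i (b t) = 0 := by
    intro t i hi
    have h2 := congrArg (proj (T.W.isInternal (X.prod Z)) (2 * C.j t + i)) h1
    rw [proj_ne _ hc.degree (Ne.symm hi), map_sum] at h2
    have h3 : ∀ t', proj (T.W.isInternal (X.prod Z)) (2 * C.j t + i) (ex T X Z (C.a t') (b t')) =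
        ex T X Z (C.a t') (if 2 * C.j t' ≤ 2 * C.j t + i then
          proj (T.W.isInternal Z) (2 * C.j t + i - 2 * C.j t') (b t') else 0) := by
      intro t'
      by_cases h4 : 2 * C.j t' ≤ 2 * C.j t + i
      · rw [if_pos h4]
        conv_lhs => rw [← Nat.add_sub_cancel' h4]
        exact proj_ex (class_mem (C.cls t')) _ _
      · rw [if_neg h4, map_zero]
        exact proj_ex_lt (by omega) (class_mem (C.cls t')) _
    rw [Finset.sum_congr rfl fun t' _ => h3 t'] at h2
    have h4 := eq_zero_of_indep T C.indep h2.symm t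
    rw [if_pos (Nat.le_add_right _ _), Nat.add_sub_cancel_left] at h4
    exact h4
  have hmem : ∀ t, C.j t ≤ w → b t ∈ T.W.gr Z (2 * (w - C.j t)) := by
    intro t ht
    have h2 : b t = proj (T.W.isInternal Z) (2 * (w - C.j t)) (b t) := by
      have h3 := sum_proj (T.W.isInternal Z) (N := 2 * Z.dim + 1 + 2 * w)
        (fun i hi => T.W.gr_eq_bot Z i (by omega))
      have h4 := congrArg (fun F => F (b t)) h3
      simp only [LinearMap.sum_apply, Module.End.one_apply] at h4
      rw [Finset.sum_eq_single (2 * (w - C.j t)) (fun i _ hi => hdeg t i (by omega))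
        (fun h => absurd (Finset.mem_range.2 (by omega)) h)] at h4
      exact h4.symm
    rw [h2]
    exact proj_mem _ _ _
  have hzero : ∀ t, ¬ C.j t ≤ w → b t = 0 := by
    intro t ht
    have h3 := sum_proj (T.W.isInternal Z) (N := 2 * Z.dim + 1)
      (fun i hi => T.W.gr_eq_bot Z i (by omega))
    have h4 := congrArg (fun F => F (b t)) h3
    simp only [LinearMap.sum_apply, Module.End.one_apply] at h4
    rw [Finset.sum_eq_zero fun i _ => hdeg t i (by omega)] at h4
    exact h4.symm
  -- the action on the coefficients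
  have hact : Pot fun g => ∀ t, (T.cyc g : T.W.K) ^ C.j t • T.act Z g (b t) =
      (T.cyc g : T.W.K) ^ w • b t := by
    refine pot_mono (pot_and (pot_and hc.fixed (act_ex T X Z))
      (pot_all fun t => class_twisted (C.cls t))) fun g hg t => ?_
    obtain ⟨⟨hg1, hg2⟩, hg3⟩ := hg
    have h2 : ∑ t, ex T X Z (C.a t) ((T.cyc g : T.W.K) ^ C.j t • T.act Z g (b t) -
        (T.cyc g : T.W.K) ^ w • b t) = 0 := by
      have h3 : ∀ t, ex T X Z (C.a t) ((T.cyc g : T.W.K) ^ C.j t • T.act Z g (b t) -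
          (T.cyc g : T.W.K) ^ w • b t) = T.act (X.prod Z) g (ex T X Z (C.a t) (b t)) -
            (T.cyc g : T.W.K) ^ w • ex T X Z (C.a t) (b t) := by
        intro t
        rw [hg2, hg3 t, map_sub, map_smul, map_smul, map_smul, LinearMap.smul_apply]
      rw [Finset.sum_congr rfl fun t _ => h3 t, Finset.sum_sub_distrib, ← map_sum,
        ← Finset.smul_sum, ← h1, hg1, sub_self]
    exact sub_eq_zero.1 (eq_zero_of_indep T C.indep h2 t)
  show c ∈ Submodule.span T.W.K {c | IsProduct T X Z w c}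
  rw [h1]
  refine Submodule.sum_mem _ fun t _ => ?_
  by_cases ht : C.j t ≤ w
  · refine Submodule.subset_span (IsProduct.mk (Nat.add_sub_cancel' ht) (C.cls t)
      ⟨hmem t ht, pot_mono hact fun g hg => ?_⟩)
    have h2 : (T.cyc g : T.W.K) ^ C.j t ≠ 0 := pow_ne_zero _ (Units.ne_zero _)
    refine (smul_right_injective _ h2) ?_
    show (T.cyc g : T.W.K) ^ C.j t • T.act Z g (b t) = (T.cyc g : T.W.K) ^ C.j t •
      ((T.cyc g : T.W.K) ^ (w - C.j t) • b t)
    rw [hg t, smul_smul, ← pow_add, Nat.add_sub_cancel' ht]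
  · have h2 : ctr T (C.θ t) c = 0 := hzero t ht
    rw [h2, map_zero]
    exact Submodule.zero_mem _

end Pool.Agent.U222.TT
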