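import Mathlib

/-!
# Algebras with automorphisms and types
-/

set_option autoImplicit false

namespace Pool.Agent.U222.TT

variable {K A B C : Type} [Field K] [Ring A] [Algebra K A] [Ring B] [Algebra K B] [Ring C]
  [Algebra K C] {Γ : Type} [Group Γ]

/-- The property `P` holds for all elements of a subgroup of finite index. -/
def Pot (P : Γ → Prop) : Prop := ∃ Δ : Subgroup Γ, Δ.FiniteIndex ∧ ∀ g ∈ Δ, P g

/-- All elements `g` of a subgroup of finite index multiply `x` by `cyc g ^ j`. -/
def IsTwisted (ρ : Γ → (A ≃ₐ[K] A)) (cyc : Γ →* Kˣ) (j : ℕ) (x : A) : Prop :=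
  Pot fun g => ρ g x = (cyc g : K) ^ j • x

/-- The homomorphism `f` commutes with all elements of a subgroup of finite index. -/
def IsEquivariant (ρ : Γ → (A ≃ₐ[K] A)) (ρ' : Γ → (B ≃ₐ[K] B)) (f : A →ₐ[K] B) : Prop :=
  Pot fun g => ∀ a, ρ' g (f a) = f (ρ g a)

/-- The subspaces of `A`. -/
def Sb (K A : Type) [Field K] [Ring A] [Algebra K A] : Type := Submodule K A

/-- The element `x` belongs to the subspace `U`. -/
def Sb.Has (U : Sb K A) (x : A) : Prop := x ∈ (show Submodule K A from U)

/-- The subspace `U` is stable under all elements of a subgroup of finite index. -/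
def IsPotStable (ρ : Γ → (A ≃ₐ[K] A)) (U : Sb K A) : Prop :=
  Pot fun g => ∀ x, U.Has x → U.Has (ρ g x)

/-- Subspaces `pq p q`, for integers `p` and `q`. -/
def Tys (K A : Type) [Field K] [Ring A] [Algebra K A] : Type := ℤ → ℤ → Submodule K A

/-- The element `x` is of type `(p, q)`. -/
def Tys.Is (t : Tys K A) (p q : ℤ) (x : A) : Prop := x ∈ t p q

/-- The elements of degree `i` are the sums of elements of types `(p, q)` with `p + q = i`, the sum of
the spaces is direct, and the types are additive for products. -/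
structure IsTyping (gr : ℕ → Submodule K A) (t : Tys K A) : Prop where
  sum : ∀ i, gr i = ⨆ r : {r : ℤ × ℤ // r.1 + r.2 = i}, t r.1.1 r.1.2
  indep : iSupIndep fun r : ℤ × ℤ => t r.1 r.2
  mul : ∀ p q r s a b, t.Is p q a → t.Is r s b → t.Is (p + r) (q + s) (a * b)

/-- The element `x` is a sum of elements of types `(p, q)` with `p - q ≥ m`. -/
def Tys.Above (t : Tys K A) (m : ℤ) (x : A) : Prop :=
  x ∈ ⨆ r : {r : ℤ × ℤ // m ≤ r.1 - r.2}, t r.1.1 r.1.2

/-- The element `x` is a sum of elements of types `(p, q)` with `p - q ≤ -m`. -/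
def Tys.Below (t : Tys K A) (m : ℤ) (x : A) : Prop :=
  x ∈ ⨆ r : {r : ℤ × ℤ // r.1 - r.2 ≤ -m}, t r.1.1 r.1.2

/-- The element `x` is a linear combination of elements of `s`. -/
def InSp (K : Type) {A : Type} [Field K] [Ring A] [Algebra K A] (s : Set A) (x : A) : Prop :=
  x ∈ Submodule.span K s

/-- The product of elements of two algebras in a third one. -/
def mul2 (f : A →ₐ[K] C) (g : B →ₐ[K] C) (a : A) (b : B) : C := f a * g b

end Pool.Agent.U222.TT
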