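import Pool.Agent.U222.HC.Defs
import Pool.Agent.U222.TT.Gen

/-!
# The Tate conjecture for products with coverings: definitions

In the intended use `k` is an algebraic closure of a finitely generated field `F` of characteristic
zero, `𝒱` is the class of all smooth projective varieties over `k` and `X ↦ H(X)` is the `ℓ`-adic
cohomology with coefficients extended to `ℂ_ℓ`.
-/

set_option autoImplicit false

open CategoryTheory AlgebraicGeometry

universe u

namespace Pool.Agent.U222.TT

open Pool.Agent.H914 Pool.Agent.H914.VarClass Pool.Agent.H914.VarClass.Obj Pool.Agent.U222.HC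

variable {k : Type u} [Field k] {𝒱 : VarClass k}

/-- A Tate theory: a Weil cohomology theory `X ↦ H(X)` with the action of a Galois group and with
Hodge-Tate decompositions.

* The field of coefficients is isomorphic to the field of the complex numbers (`ℂ_ℓ`).
* `Γ` is the Galois group of `k` over `F` and `cyc` is the inverse of the cyclotomic character, with
  values in `ℤ_ℓ`. A variety `X` over `k` has a model over a finite extension of `F`, and `act X g` is the
  action on `H(X)` of the elements `g` of the Galois group of this extension (the other `act X g` are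
  arbitrary). Pull-backs are equivariant, and the cycles of codimension `j` are fixed up to the
  Tate twist, under subgroups of finite index.
* For each embedding `τ ∈ E` of `k` into `ℂ_ℓ`, `pq τ X p q` is the space `H^q(X, Ω^p) ⊗ ℂ_ℓ` in the
  Hodge-Tate decomposition of `H(X)` (Faltings), which is compatible with pull-backs and
  products. The classes in `H^(2j)` on which a subgroup of finite index acts by `cyc ^ j` are of type
  `(j, j)`.
* Every variety has a point. -/
structure TateTheory (ops : CycleOps 𝒱) where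
  /-- the cohomology -/
  W : WeilCohomology.{u, 0} ops
  /-- the isomorphism of the coefficients with `ℂ` -/
  iso : W.K ≃+* ℂ
  /-- the Galois group -/
  Γ : Type
  [group : Group Γ]
  /-- the inverse of the cyclotomic character -/
  cyc : Γ →* W.Kˣ
  /-- the action -/
  act : ∀ X : 𝒱.Obj, Γ → (W.H X ≃ₐ[W.K] W.H X)
  /-- the embeddings -/
  E : Type
  /-- the types -/
  pq : E → ∀ X : 𝒱.Obj, Tys W.K (W.H X)
  equi : ∀ (X Y : 𝒱.Obj) (f : X ⟶ Y), IsEquivariant (act Y) (act X) (W.map f)
  cl : ∀ (X : 𝒱.Obj) (j : ℕ) (z : X.Cycles), X.IsCyc j z → IsTwisted (act X) cyc j (W.cl X z)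
  typing : ∀ τ X, IsTyping (W.gr X) (pq τ X)
  map : ∀ τ (X Y : 𝒱.Obj) (f : X ⟶ Y) p q b, (pq τ Y).Is p q b → (pq τ X).Is p q (W.map f b)
  tate : ∀ τ X j, ∀ c ∈ W.gr X (2 * j), IsTwisted (act X) cyc j c → (pq τ X).Is j j c
  point : ∀ X : 𝒱.Obj, ∃ z : X.Cycles, X.IsCyc X.dim z ∧ X.V.degCycle z ≠ 0

attribute [instance] TateTheory.group

variable {ops : CycleOps 𝒱} (T : TateTheory ops) {X : 𝒱.Obj}

/-- The class `c` is a Tate class of degree `2 j`: it belongs to `H^(2j)(X)` and is fixed, up to the
Tate twist, by a subgroup of finite index. -/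
structure IsTate (j : ℕ) (c : T.W.H X) : Prop where
  degree : c ∈ T.W.gr X (2 * j)
  fixed : IsTwisted (T.act X) T.cyc j c

/-- The class `c` is the class of an algebraic cycle of codimension `j`. -/
def IsClass (j : ℕ) (c : T.W.H X) : Prop := ∃ z : X.Cycles, X.IsCyc j z ∧ T.W.cl X z = c

/-- The Tate conjecture for `X`: the Tate classes of degree `2 j` are linear combinations of classes
of algebraic cycles of codimension `j`. -/
def TateConjecture (X : 𝒱.Obj) : Prop :=
  ∀ (j : ℕ) (c : T.W.H X), IsTate T j c → InSp T.W.K {c | IsClass T j c} c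

/-- The class `x` is an eigenvector of the group `G` with the character `χ`. -/
def IsEigenvector (A : GVar 𝒱) (χ : A.Ch) (x : T.W.H A.X) : Prop :=
  ∀ g, T.W.map (A.act g) x = T.iso.symm (χ.val g) • x

/-- Varieties `X_i` with actions of finite abelian groups `G_i` such that

* the classes in `H(X_i)` that are invariant under `G_i` are algebraic;
* for each nontrivial character `χ` of `G_i` and each embedding `τ` the eigenvectors of `G_i` in
  `H(X_i)` with the character `χ` are sums of classes of types `(p, q)` for `τ` with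
  `p - q ≥ m τ i χ`. -/
structure IsSystem {n : ℕ} (A : Fam 𝒱 n) (m : T.E → ∀ i, (A i).Ch → ℤ) : Prop where
  invariants : ∀ i (x : T.W.H (A i).X), (∀ g, T.W.map ((A i).act g) x = x) →
    InSp T.W.K {c | ∃ j, IsClass T j c} x
  types : ∀ τ i χ x, ¬ χ.IsTrivial → IsEigenvector T (A i) χ x →
    (T.pq τ (A i).X).Above (m τ i χ) x

/-- For all nontrivial characters `χ i` of `G_i`, where `i` runs through a nonempty set `I` of indices,
there is an embedding `τ` such that the sum of the numbers `m τ i (χ i)` is at least `M`. -/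
def IsExtreme {E : Type} {n : ℕ} (A : Fam 𝒱 n) (m : E → ∀ i, (A i).Ch → ℤ) (M : ℤ) : Prop :=
  ∀ I : Finset (Fin (n + 1)), I.Nonempty → ∀ χ : ∀ i, (A i).Ch, (∀ i ∈ I, ¬ (χ i).IsTrivial) →
    ∃ τ, M ≤ ∑ i ∈ I, m τ i (χ i)

/-- There is no nonzero subspace of `H(Z)`, stable under a subgroup of finite index, all of whose
types `(p, q)` for some embedding `τ` satisfy `p - q ≤ -M`. -/
def IsUnrelated (M : ℤ) (Z : 𝒱.Obj) : Prop :=
  ∀ (U : Sb T.W.K (T.W.H Z)) (τ : T.E), IsPotStable (T.act Z) U →
    (∀ x, U.Has x → (T.pq τ Z).Below M x) → ∀ x, U.Has x → x = 0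

/-- The Hodge numbers `h^(p,q)` of `Z` are zero if `|p - q| ≥ M`. -/
def IsOfLevelLess (M : ℤ) (Z : 𝒱.Obj) : Prop :=
  ∀ τ (p q : ℤ) (x : T.W.H Z), (T.pq τ Z).Is p q x → M ≤ |p - q| → x = 0

/-- The class `c` on `X × Z` is the product of the class of an algebraic cycle on `X`, of codimension
`j`, and of a Tate class of degree `2 (w - j)` on `Z`. -/
inductive IsProduct (X Z : 𝒱.Obj) (w : ℕ) : T.W.H (X.prod Z) → Prop
  | mk {j l : ℕ} {a : T.W.H X} {b : T.W.H Z} : j + l = w → IsClass T j a → IsTate T l b →
      IsProduct X Z w (mul2 (T.W.map (fst X Z)) (T.W.map (snd X Z)) a b)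

/-- All Tate classes on `X × Z` are linear combinations of products of classes of algebraic cycles on
`X` and Tate classes on `Z`. -/
def AreSums (X Z : 𝒱.Obj) : Prop :=
  ∀ w (c : T.W.H (X.prod Z)), IsTate T w c → InSp T.W.K {c | IsProduct T X Z w c} c

end Pool.Agent.U222.TT
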