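import Pool.Agent.U222.TT.Defs
import Pool.Agent.U222.HC.Act
import Pool.Agent.H914R2.WeilBasic

/-!
# Linear algebra of the cohomology of a product, types
-/

set_option autoImplicit false

open CategoryTheory AlgebraicGeometry TensorProduct

universe u

namespace Pool.Agent.U222.TT

open Pool.Agent.H914 Pool.Agent.H914.VarClass Pool.Agent.H914.VarClass.Obj Pool.Agent.U222.HC

variable {k : Type u} [Field k] {𝒱 : VarClass k} {ops : CycleOps 𝒱} (T : TateTheory ops)
  {X Y Z V : 𝒱.Obj}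

/-- The external product. -/
noncomputable def ex (X Y : 𝒱.Obj) : T.W.H X →ₗ[T.W.K] T.W.H Y →ₗ[T.W.K] T.W.H (X.prod Y) :=
  (LinearMap.mul T.W.K (T.W.H (X.prod Y))).compl₁₂ (T.W.map (fst X Y)).toLinearMap
    (T.W.map (snd X Y)).toLinearMap

lemma ex_apply (a : T.W.H X) (b : T.W.H Y) :
    ex T X Y a b = T.W.map (fst X Y) a * T.W.map (snd X Y) b := rfl

/-- The Kunneth isomorphism. -/
noncomputable def kn (X Y : 𝒱.Obj) : (T.W.H X ⊗[T.W.K] T.W.H Y) ≃ₗ[T.W.K] T.W.H (X.prod Y) :=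
  LinearEquiv.ofBijective _ (T.W.kunneth X Y)

lemma kn_tmul (a : T.W.H X) (b : T.W.H Y) : kn T X Y (a ⊗ₜ b) = ex T X Y a b := rfl

lemma kn_symm (a : T.W.H X) (b : T.W.H Y) : (kn T X Y).symm (ex T X Y a b) = a ⊗ₜ b := by
  rw [LinearEquiv.symm_apply_eq, kn_tmul]

lemma kn_ind {P : T.W.H (X.prod Y) → Prop} (h0 : P 0) (ha : ∀ x y, P x → P y → P (x + y))
    (he : ∀ a b, P (ex T X Y a b)) (x : T.W.H (X.prod Y)) : P x := by
  obtain ⟨t, rfl⟩ := (kn T X Y).surjective x
  induction t using TensorProduct.induction_on with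
  | zero => rw [map_zero]; exact h0
  | tmul a b => rw [kn_tmul]; exact he a b
  | add s t hs ht => rw [map_add]; exact ha _ _ hs ht

/-- Contraction with a linear form on the cohomology of the first factor. -/
noncomputable def ctr (θ : T.W.H X →ₗ[T.W.K] T.W.K) : T.W.H (X.prod Y) →ₗ[T.W.K] T.W.H Y :=
  (TensorProduct.lid T.W.K (T.W.H Y)).toLinearMap ∘ₗ (TensorProduct.map θ LinearMap.id) ∘ₗ
    (kn T X Y).symm.toLinearMap

lemma ctr_ex (θ : T.W.H X →ₗ[T.W.K] T.W.K) (a : T.W.H X) (b : T.W.H Y) :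
    ctr T θ (ex T X Y a b) = θ a • b := by
  rw [ctr, LinearMap.comp_apply, LinearMap.comp_apply, LinearEquiv.coe_coe, LinearEquiv.coe_coe,
    kn_symm, TensorProduct.map_tmul, TensorProduct.lid_tmul, LinearMap.id_apply]

/-- An operator on the cohomology of the first factor. -/
noncomputable def op1 (f : T.W.H X →ₗ[T.W.K] T.W.H X) :
    T.W.H (X.prod Y) →ₗ[T.W.K] T.W.H (X.prod Y) :=
  (kn T X Y).toLinearMap ∘ₗ (TensorProduct.map f LinearMap.id) ∘ₗ (kn T X Y).symm.toLinearMap

/-- An operator on the cohomology of the second factor. -/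
noncomputable def op2 (f : T.W.H Y →ₗ[T.W.K] T.W.H Y) :
    T.W.H (X.prod Y) →ₗ[T.W.K] T.W.H (X.prod Y) :=
  (kn T X Y).toLinearMap ∘ₗ (TensorProduct.map LinearMap.id f) ∘ₗ (kn T X Y).symm.toLinearMap

lemma op1_ex (f : T.W.H X →ₗ[T.W.K] T.W.H X) (a : T.W.H X) (b : T.W.H Y) :
    op1 T f (ex T X Y a b) = ex T X Y (f a) b := by
  rw [op1, LinearMap.comp_apply, LinearMap.comp_apply, LinearEquiv.coe_coe, LinearEquiv.coe_coe,
    kn_symm, TensorProduct.map_tmul, kn_tmul, LinearMap.id_apply]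

lemma op2_ex (f : T.W.H Y →ₗ[T.W.K] T.W.H Y) (a : T.W.H X) (b : T.W.H Y) :
    op2 T f (ex T X Y a b) = ex T X Y a (f b) := by
  rw [op2, LinearMap.comp_apply, LinearMap.comp_apply, LinearEquiv.coe_coe, LinearEquiv.coe_coe,
    kn_symm, TensorProduct.map_tmul, kn_tmul, LinearMap.id_apply]

lemma lin_ext {U : Type*} [AddCommGroup U] [Module T.W.K U] {f g : T.W.H (X.prod Y) →ₗ[T.W.K] U}
    (h : ∀ a b, f (ex T X Y a b) = g (ex T X Y a b)) : f = g := by
  refine LinearMap.ext fun x => ?_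
  induction x using kn_ind T with
  | h0 => rw [map_zero, map_zero]
  | ha x y hx hy => rw [map_add, map_add, hx, hy]
  | he a b => exact h a b

lemma ctr_op1 (θ : T.W.H X →ₗ[T.W.K] T.W.K) (f : T.W.H X →ₗ[T.W.K] T.W.H X)
    (x : T.W.H (X.prod Y)) : ctr T θ (op1 T f x) = ctr T (θ ∘ₗ f) x := by
  have h : (ctr T θ : T.W.H (X.prod Y) →ₗ[T.W.K] T.W.H Y) ∘ₗ op1 T f = ctr T (θ ∘ₗ f) :=
    lin_ext T fun a b => by rw [LinearMap.comp_apply, op1_ex, ctr_ex, ctr_ex, LinearMap.comp_apply]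
  exact LinearMap.congr_fun h x

lemma ctr_op2 (θ : T.W.H X →ₗ[T.W.K] T.W.K) (f : T.W.H Y →ₗ[T.W.K] T.W.H Y)
    (x : T.W.H (X.prod Y)) : ctr T θ (op2 T f x) = f (ctr T θ x) := by
  have h : (ctr T θ : T.W.H (X.prod Y) →ₗ[T.W.K] T.W.H Y) ∘ₗ op2 T f = f ∘ₗ ctr T θ :=
    lin_ext T fun a b => by
      rw [LinearMap.comp_apply, op2_ex, ctr_ex, LinearMap.comp_apply, ctr_ex, map_smul]
  exact LinearMap.congr_fun h x

/-- A class is zero if all its contractions are zero. -/
lemma eq_zero_of_ctr {x : T.W.H (X.prod Y)} (h : ∀ θ, ctr T θ x = 0) : x = 0 := by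
  let b := Module.finBasis T.W.K (T.W.H X)
  have h1 : x = ∑ i, ex T X Y (b i) (ctr T (b.coord i) x) := by
    have h2 : (LinearMap.id : T.W.H (X.prod Y) →ₗ[T.W.K] T.W.H (X.prod Y)) =
        ∑ i, (ex T X Y (b i)) ∘ₗ ctr T (b.coord i) := by
      refine lin_ext T fun a c => ?_
      rw [LinearMap.id_apply, LinearMap.sum_apply]
      have h3 : ∀ i, ((ex T X Y (b i)) ∘ₗ ctr T (b.coord i)) (ex T X Y a c) =
          ex T X Y (b.coord i a • b i) c := fun i => by
        rw [LinearMap.comp_apply, ctr_ex, map_smul, map_smul, LinearMap.smul_apply]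
      rw [Finset.sum_congr rfl fun i _ => h3 i, ← LinearMap.sum_apply, ← map_sum]
      congr 2
      exact (b.sum_repr a).symm
    have h4 := LinearMap.congr_fun h2 x
    rw [LinearMap.id_apply, LinearMap.sum_apply] at h4
    exact h4
  rw [h1]
  refine Finset.sum_eq_zero fun i _ => ?_
  rw [h, map_zero]

/-- Linear independence and external products. -/
lemma eq_zero_of_indep {I : Type} [Fintype I] {e : I → T.W.H X} (he : LinearIndependent T.W.K e)
    {y : I → T.W.H Y} (h : ∑ i, ex T X Y (e i) (y i) = 0) (i : I) : y i = 0 := by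
  classical
  obtain ⟨θ, hθ⟩ : ∃ θ : T.W.H X →ₗ[T.W.K] T.W.K, ∀ j, θ (e j) = if j = i then 1 else 0 := by
    obtain ⟨g, hg⟩ := (Fintype.linearCombination T.W.K e).exists_leftInverse_of_injective
      (LinearMap.ker_eq_bot.2 (linearIndependent_iff_injective_fintypeLinearCombination.1 he))
    refine ⟨(LinearMap.proj i) ∘ₗ g, fun j => ?_⟩
    have h1 := LinearMap.congr_fun hg (Pi.single j 1)
    rw [LinearMap.comp_apply, Fintype.linearCombination_apply_single, one_smul,
      LinearMap.id_apply] at h1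
    rw [LinearMap.comp_apply, h1, LinearMap.proj_apply, Pi.single_apply]
    congr 1
    exact propext eq_comm
  have h1 := congrArg (ctr T θ) h
  rw [map_zero, map_sum, Finset.sum_congr rfl fun j _ => ctr_ex T θ (e j) (y j),
    Finset.sum_eq_single i (fun j _ hj => by rw [hθ, if_neg hj, zero_smul])
      (fun h => absurd (Finset.mem_univ i) h), hθ, if_pos rfl, one_smul] at h1
  exact h1

/-! ### Types -/

/-- The classes of type `(p, q)`. -/
def ty (τ : T.E) (X : 𝒱.Obj) (r : ℤ × ℤ) : Submodule T.W.K (T.W.H X) := T.pq τ X r.1 r.2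

variable (τ : T.E)

lemma types_top (X : 𝒱.Obj) : ⨆ r : ℤ × ℤ, ty T τ X r = ⊤ := by
  rw [eq_top_iff, ← (T.W.isInternal X).submodule_iSup_eq_top]
  refine iSup_le fun i => ?_
  rw [(T.typing τ X).sum i]
  exact iSup_le fun r => le_iSup (fun r : ℤ × ℤ => ty T τ X r) r.1

lemma types_internal (X : 𝒱.Obj) : DirectSum.IsInternal fun r : ℤ × ℤ => ty T τ X r :=
  (DirectSum.isInternal_submodule_iff_iSupIndep_and_iSup_eq_top _).2
    ⟨(T.typing τ X).indep, types_top T τ X⟩

/-- Induction on classes. -/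
lemma ty_ind {P : T.W.H X → Prop} (h0 : P 0) (ha : ∀ x y, P x → P y → P (x + y))
    (he : ∀ (r : ℤ × ℤ) x, x ∈ ty T τ X r → P x) (x : T.W.H X) : P x := by
  have hx : x ∈ ⨆ r : ℤ × ℤ, ty T τ X r := by
    rw [types_top T τ X]
    exact Submodule.mem_top
  induction hx using Submodule.iSup_induction' with
  | mem r x hx => exact he r x hx
  | zero => exact h0
  | add x y _ _ hx hy => exact ha x y hx hy

/-- Induction on classes on a product. -/
lemma kt_ind {P : T.W.H (X.prod Y) → Prop} (h0 : P 0) (ha : ∀ x y, P x → P y → P (x + y))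
    (he : ∀ (r s : ℤ × ℤ) a b, a ∈ ty T τ X r → b ∈ ty T τ Y s → P (ex T X Y a b))
    (x : T.W.H (X.prod Y)) : P x := by
  refine kn_ind T h0 ha (fun a b => ?_) x
  induction a using ty_ind T τ with
  | h0 => rw [map_zero, LinearMap.zero_apply]; exact h0
  | ha x y hx hy => rw [map_add, LinearMap.add_apply]; exact ha _ _ hx hy
  | he r a h1 =>
    induction b using ty_ind T τ with
    | h0 => rw [map_zero]; exact h0
    | ha x y hx hy => rw [map_add]; exact ha _ _ hx hy
    | he s b h2 => exact he r s a b h1 h2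

/-- The projection to the classes of type `r`. -/
noncomputable def pr (X : 𝒱.Obj) (r : ℤ × ℤ) : T.W.H X →ₗ[T.W.K] T.W.H X :=
  (ty T τ X r).subtype ∘ₗ
    (DirectSum.component T.W.K (ℤ × ℤ) (fun r => ty T τ X r) r) ∘ₗ
    (LinearEquiv.ofBijective (DirectSum.coeLinearMap fun r : ℤ × ℤ => ty T τ X r)
      (types_internal T τ X)).symm.toLinearMap

lemma pr_mem (r : ℤ × ℤ) (x : T.W.H X) : pr T τ X r x ∈ ty T τ X r := by
  rw [pr, LinearMap.comp_apply]
  exact Submodule.coe_mem _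

lemma pr_of_mem {s : ℤ × ℤ} (r : ℤ × ℤ) {x : T.W.H X} (hx : x ∈ ty T τ X s) :
    pr T τ X r x = if s = r then x else 0 := by
  classical
  rw [pr, LinearMap.comp_apply, LinearMap.comp_apply, LinearEquiv.coe_coe]
  have h : (LinearEquiv.ofBijective (DirectSum.coeLinearMap fun r : ℤ × ℤ => ty T τ X r)
      (types_internal T τ X)).symm x =
      DirectSum.lof T.W.K (ℤ × ℤ) (fun r => ty T τ X r) s ⟨x, hx⟩ := by
    rw [LinearEquiv.symm_apply_eq, LinearEquiv.ofBijective_apply, DirectSum.coeLinearMap_lof]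
  rw [h]
  split_ifs with h1
  · subst h1
    rw [DirectSum.component.lof_self]
    rfl
  · rw [DirectSum.component.of, dif_neg h1, map_zero]

lemma pr_same {r : ℤ × ℤ} {x : T.W.H X} (hx : x ∈ ty T τ X r) : pr T τ X r x = x := by
  rw [pr_of_mem T τ r hx, if_pos rfl]

/-- A class is the sum of its components. -/
lemma pr_sum (x : T.W.H X) : ∃ S : Finset (ℤ × ℤ), (∀ r, r ∉ S → pr T τ X r x = 0) ∧
    x = ∑ r ∈ S, pr T τ X r x := by
  classical
  induction x using ty_ind T τ with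
  | h0 => exact ⟨∅, fun r _ => map_zero _, rfl⟩
  | ha x y hx hy =>
    obtain ⟨S, hS, hx⟩ := hx
    obtain ⟨S', hS', hy⟩ := hy
    refine ⟨S ∪ S', fun r hr => ?_, ?_⟩
    · rw [Finset.mem_union, not_or] at hr
      rw [map_add, hS r hr.1, hS' r hr.2, add_zero]
    · have h1 : ∑ r ∈ S ∪ S', pr T τ X r x = x := by
        conv_rhs => rw [hx]
        exact (Finset.sum_subset Finset.subset_union_left fun r _ hr => hS r hr).symm
      have h2 : ∑ r ∈ S ∪ S', pr T τ X r y = y := by
        conv_rhs => rw [hy]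
        exact (Finset.sum_subset Finset.subset_union_right fun r _ hr => hS' r hr).symm
      rw [Finset.sum_congr rfl fun r _ => map_add (pr T τ X r) x y, Finset.sum_add_distrib, h1, h2]
  | he r x hx =>
    refine ⟨{r}, fun s hs => ?_, ?_⟩
    · rw [pr_of_mem T τ s hx, if_neg]
      rintro rfl
      exact hs (Finset.mem_singleton_self _)
    · rw [Finset.sum_singleton, pr_same T τ hx]

/-- Types of external products. -/
lemma ex_mem {r s : ℤ × ℤ} {a : T.W.H X} {b : T.W.H Y} (ha : a ∈ ty T τ X r)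
    (hb : b ∈ ty T τ Y s) : ex T X Y a b ∈ ty T τ (X.prod Y) (r + s) := by
  rw [ex_apply]
  exact (T.typing τ (X.prod Y)).mul _ _ _ _ _ _ (T.map _ _ _ _ _ _ _ ha) (T.map _ _ _ _ _ _ _ hb)

/-- For a class of pure type on a product the components for the two factors agree. -/
lemma op_pr {t : ℤ × ℤ} {x : T.W.H (X.prod Y)} (hx : x ∈ ty T τ (X.prod Y) t)
    (s : ℤ × ℤ) : op2 T (pr T τ Y s) x = op1 T (pr T τ X (t - s)) x := by
  have h : ∀ y : T.W.H (X.prod Y), op2 T (pr T τ Y s) (pr T τ (X.prod Y) t y) =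
      op1 T (pr T τ X (t - s)) (pr T τ (X.prod Y) t y) := by
    intro y
    induction y using kt_ind T τ with
    | h0 => rw [map_zero, map_zero, map_zero]
    | ha x y hx hy => rw [map_add, map_add, map_add, hx, hy]
    | he r s' a b ha hb =>
      rw [pr_of_mem T τ t (ex_mem T τ ha hb)]
      split_ifs with h1
      · rw [op2_ex, op1_ex, pr_of_mem T τ s hb, pr_of_mem T τ (t - s) ha]
        by_cases h2 : s' = s
        · subst h2
          rw [if_pos rfl, if_pos (eq_sub_of_add_eq h1)]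
        · rw [if_neg h2, if_neg, map_zero, map_zero, LinearMap.zero_apply]
          intro h3
          rw [h3] at h1
          exact h2 (by rw [sub_add_eq_add_sub] at h1; exact (add_left_cancel
            (a := t) (by rw [sub_eq_iff_eq_add] at h1; exact h1)))
      · rw [map_zero, map_zero]
  have h1 := h x
  rw [pr_same T τ hx] at h1
  exact h1

/-- Components of the coefficients. -/
lemma pr_ctr {t : ℤ × ℤ} {x : T.W.H (X.prod Y)} (hx : x ∈ ty T τ (X.prod Y) t)
    (s : ℤ × ℤ) (θ : T.W.H X →ₗ[T.W.K] T.W.K) :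
    pr T τ Y s (ctr T θ x) = ctr T (θ ∘ₗ pr T τ X (t - s)) x := by
  rw [← ctr_op2, op_pr T τ hx s, ctr_op1]

lemma mem_above {m : ℤ} {x : T.W.H X} :
    (T.pq τ X).Above m x ↔ ∀ r : ℤ × ℤ, ¬ m ≤ r.1 - r.2 → pr T τ X r x = 0 := by
  constructor
  · intro hx r hr
    have h : (⨆ r : {r : ℤ × ℤ // m ≤ r.1 - r.2}, T.pq τ X r.1.1 r.1.2) ≤
        LinearMap.ker (pr T τ X r) := by
      refine iSup_le fun s y hy => ?_
      rw [LinearMap.mem_ker, pr_of_mem T τ (s := s.1) r hy, if_neg]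
      rintro rfl
      exact hr s.2
    exact h hx
  · intro h
    obtain ⟨S, -, hx⟩ := pr_sum T τ x
    rw [hx]
    refine Submodule.sum_mem _ fun r _ => ?_
    by_cases hr : m ≤ r.1 - r.2
    · exact Submodule.mem_iSup_of_mem ⟨r, hr⟩ (pr_mem T τ r x)
    · rw [h r hr]
      exact Submodule.zero_mem _

lemma mem_below {m : ℤ} {x : T.W.H X} :
    (T.pq τ X).Below m x ↔ ∀ r : ℤ × ℤ, ¬ r.1 - r.2 ≤ -m → pr T τ X r x = 0 := by
  constructor
  · intro hx r hr
    have h : (⨆ r : {r : ℤ × ℤ // r.1 - r.2 ≤ -m}, T.pq τ X r.1.1 r.1.2) ≤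
        LinearMap.ker (pr T τ X r) := by
      refine iSup_le fun s y hy => ?_
      rw [LinearMap.mem_ker, pr_of_mem T τ (s := s.1) r hy, if_neg]
      rintro rfl
      exact hr s.2
    exact h hx
  · intro h
    obtain ⟨S, -, hx⟩ := pr_sum T τ x
    rw [hx]
    refine Submodule.sum_mem _ fun r _ => ?_
    by_cases hr : r.1 - r.2 ≤ -m
    · exact Submodule.mem_iSup_of_mem ⟨r, hr⟩ (pr_mem T τ r x)
    · rw [h r hr]
      exact Submodule.zero_mem _

/-- Products of classes above `m` and `m'`. -/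
lemma ex_above {m m' : ℤ} {a : T.W.H X} {b : T.W.H Y} (ha : (T.pq τ X).Above m a)
    (hb : (T.pq τ Y).Above m' b) : (T.pq τ (X.prod Y)).Above (m + m') (ex T X Y a b) := by
  induction ha using Submodule.iSup_induction' with
  | mem r a ha =>
    induction hb using Submodule.iSup_induction' with
    | mem s b hb =>
      refine Submodule.mem_iSup_of_mem ⟨r.1 + s.1, ?_⟩ (ex_mem T τ (r := r.1) (s := s.1) ha hb)
      have h1 := r.2
      have h2 := s.2
      show m + m' ≤ (r.1.1 + s.1.1) - (r.1.2 + s.1.2)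
      linarith
    | zero => rw [map_zero]; exact Submodule.zero_mem _
    | add x y _ _ hx hy => rw [map_add]; exact Submodule.add_mem _ hx hy
  | zero => rw [map_zero, LinearMap.zero_apply]; exact Submodule.zero_mem _
  | add x y _ _ hx hy => rw [map_add, LinearMap.add_apply]; exact Submodule.add_mem _ hx hy

/-- A class of type `(w, w)` above a positive number is zero. -/
lemma eq_zero_of_above {m : ℤ} (hm : 0 < m) {w : ℤ} {x : T.W.H X} (hx : x ∈ ty T τ X (w, w))
    (h : (T.pq τ X).Above m x) : x = 0 := by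
  have h1 := (mem_above T τ).1 h (w, w) (by show ¬ m ≤ w - w; rw [sub_self]; exact not_le.2 hm)
  rw [pr_same T τ (r := (w, w)) hx] at h1
  exact h1

end Pool.Agent.U222.TT
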